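import Mathlib
import Pool.Agent.H26.Cyc

set_option autoImplicit false

namespace Pool.Agent.Results.MP_bdbea1_co.NoLateLoss

open SimpleGraph

/-- chordal: no induced cycle with at least four vertices -/
def Chordal {V : Type} (G : SimpleGraph V) : Prop :=
  ∀ k : ℕ, 4 ≤ k → IsEmpty (cycleGraph k ↪g G)

/-- co-chordal: the complement is chordal -/
def CoChordal {V : Type} (G : SimpleGraph V) : Prop := Chordal Gᶜ

/-- the graph of `s`-jets -/
def jet {V : Type} (G : SimpleGraph V) (s : ℕ) : SimpleGraph (V × Fin (s + 1)) where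
  Adj p q := G.Adj p.1 q.1 ∧ (p.2 : ℕ) + q.2 ≤ s
  symm := ⟨fun _ _ h => ⟨h.1.symm, by have := h.2; omega⟩⟩
  loopless := ⟨fun _ h => h.1.ne rfl⟩

theorem multi {V : Type} (G : SimpleGraph V) (hG : ∀ x, ∃ y, G.Adj x y)
    (h : CoChordal (jet G 2)) (x z w : V) (hz : ¬ G.Adj x z) (hw : ¬ G.Adj x w) : ¬ G.Adj z w := by
  intro hzw
  obtain ⟨y, hy⟩ := hG x
  have hz' : ¬ G.Adj z x := fun h => hz h.symm
  have hw' : ¬ G.Adj w x := fun h => hw h.symm
  have n1 := hzw.ne
  have n2 := hzw.ne'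
  refine (h 4 le_rfl).false ⟨⟨![(x, 0), (z, 1), (y, 2), (w, 1)], ?_⟩, ?_⟩
  · intro i j hij
    fin_cases i <;> fin_cases j <;> simp_all
  · intro i j
    fin_cases i <;> fin_cases j <;>
      simp [jet, hz, hw, hz', hw', hy, hy.symm, hzw, hzw.symm, n1, n2] <;> decide

theorem all_jets {V : Type} (G : SimpleGraph V)
    (hm : ∀ x z w, ¬ G.Adj x z → ¬ G.Adj x w → ¬ G.Adj z w) (s : ℕ) : CoChordal (jet G s) := by
  intro k hk
  obtain ⟨m, rfl⟩ : ∃ m, k = m + 4 := ⟨k - 4, by omega⟩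
  refine ⟨fun f => ?_⟩
  obtain ⟨i, -, hi⟩ := Finset.exists_max_image Finset.univ (fun i => ((f i).2 : ℕ))
    Finset.univ_nonempty
  obtain ⟨j, hji, hj⟩ := Pool.Agent.H26.Cyc.far m i
  obtain ⟨h1, h2, h3, h4⟩ := Pool.Agent.H26.Cyc.two m j
  rw [← f.map_adj_iff] at hj h1 h3 h4
  simp only [compl_adj, jet, not_and, not_le, not_forall, not_lt] at hj h1 h3 h4
  obtain ⟨-, a2⟩ := hj (f.injective.ne hji.symm)
  obtain ⟨b1, -⟩ := h1 (f.injective.ne h2)
  have c1 := hi (j - 1) (Finset.mem_univ _)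
  have c2 := hi (j + 1) (Finset.mem_univ _)
  refine hm (f j).1 _ _ (fun h => ?_) (fun h => ?_) b1
  · have := h3.2 h
    omega
  · have := h4.2 h
    omega

/-- For every `n ≥ 2` there is no co-chordal graph of diameter two whose jet graphs of orders
`1, …, n` are co-chordal while the jet graph of order `n + 1` is not. -/
theorem result (n : ℕ) (hn : 2 ≤ n) :
    ¬ ∃ (V : Type) (_ : Fintype V) (G : SimpleGraph V), CoChordal G ∧ G.ediam = 2 ∧
      (∀ i, 1 ≤ i → i ≤ n → CoChordal (jet G i)) ∧ ¬ CoChordal (jet G (n + 1)) := by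
  rintro ⟨V, _, G, -, hd, h, hn'⟩
  have hnt : Nontrivial V := nontrivial_of_ediam_ne_zero (G := G) (by rw [hd]; norm_num)
  have hc : G.Connected := connected_of_ediam_ne_top (by rw [hd]; decide)
  refine hn' (all_jets G (multi G (fun x => ?_) (h 2 (by norm_num) hn)) _)
  obtain ⟨y, hy⟩ := exists_ne x
  obtain ⟨p⟩ := hc.preconnected x y
  cases p with
  | nil => exact absurd rfl hy
  | cons h _ => exact ⟨_, h⟩

end Pool.Agent.Results.MP_bdbea1_co.NoLateLoss
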